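import Mathlib

set_option autoImplicit false

namespace Pool.Agent.Results.MP_c8a2a1_co.Books

/-- points of three-space: horizontal part and height -/
abbrev R3 := (ℝ × ℝ) × ℝ

/-- the closed half-plane bounded by the vertical axis in horizontal direction `u` -/
def Page (u : ℝ × ℝ) : Set R3 := {p | ∃ t : ℝ, 0 ≤ t ∧ p.1 = t • u}

/-- the book whose pages have horizontal directions `d i` -/
def Book {n : ℕ} (d : Fin n → ℝ × ℝ) : Set R3 := ⋃ i, Page (d i)

/-- the polygonal arc through the points `q 0, ..., q k` -/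
def Arc (k : ℕ) (q : ℕ → R3) : Set R3 := ⋃ i, ⋃ (_ : i < k), segment ℝ (q i) (q (i + 1))

/-- order-preserving embedding of the digraph `E` (`E b a`: an edge from `b` to `a`) in `S` -/
def Embeds {V : Type} (E : V → V → Prop) (S : Set R3) : Prop :=
  ∃ (pos : V → R3) (k : V → V → ℕ) (q : V → V → ℕ → R3),
    Function.Injective pos ∧ (∀ v, pos v ∈ S) ∧
    (∀ b a, E b a → q b a 0 = pos b ∧ q b a (k b a) = pos a ∧
      (∀ i, i < k b a → (q b a (i + 1)).2 < (q b a i).2) ∧ Arc (k b a) (q b a) ⊆ S ∧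
      ∀ v, pos v ∈ Arc (k b a) (q b a) → v = b ∨ v = a) ∧
    (∀ b a b' a', E b a → E b' a' → (b, a) ≠ (b', a') →
      ∀ p, p ∈ Arc (k b a) (q b a) → p ∈ Arc (k b' a') (q b' a') →
        ∃ v, p = pos v ∧ (v = b ∨ v = a) ∧ (v = b' ∨ v = a'))

/-- `L` is a family of linear orders whose intersection is the order `a ≤ b` iff there is a
directed path from `b` to `a` -/
def Realizer {V : Type} (E : V → V → Prop) {t : ℕ} (L : Fin t → LinearOrder V) : Prop :=
  ∀ a b, Relation.ReflTransGen E b a ↔ ∀ i, (L i).le a b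

noncomputable def hz (u w : ℝ × ℝ) (y : ℝ) : ℝ × ℝ := if 0 ≤ y then y • u else (-y) • w

theorem hz_nonneg (u w : ℝ × ℝ) (y : ℝ) (h : 0 ≤ y) : hz u w y = y • u := if_pos h

theorem hz_nonpos (u w : ℝ × ℝ) (y : ℝ) (h : y ≤ 0) : hz u w y = (-y) • w := by
  unfold hz
  split_ifs with h'
  · have : y = 0 := le_antisymm h h'
    simp [this]
  · rfl

def Far (u w : ℝ × ℝ) : Prop := ∀ s t : ℝ, 0 ≤ s → 0 ≤ t → s • u = t • w → s = 0 ∧ t = 0

theorem far_of (u w : ℝ × ℝ) (hu : u ≠ 0) (hw : w ≠ 0) (h : Page u ≠ Page w) : Far u w := by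
  intro s t hs ht hst
  by_cases h1 : s = 0
  · subst h1
    rw [zero_smul] at hst
    exact ⟨rfl, (smul_eq_zero.1 hst.symm).resolve_right hw⟩
  by_cases h2 : t = 0
  · subst h2
    rw [zero_smul] at hst
    exact ⟨(smul_eq_zero.1 hst).resolve_right hu, rfl⟩
  exfalso
  apply h
  have e1 : u = (t / s) • w := by
    rw [div_eq_inv_mul, mul_smul, ← hst, smul_smul, inv_mul_cancel₀ h1, one_smul]
  have e2 : w = (s / t) • u := by
    rw [div_eq_inv_mul, mul_smul, hst, smul_smul, inv_mul_cancel₀ h2, one_smul]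
  ext p
  constructor
  · rintro ⟨r, hr, hp⟩
    exact ⟨r * (t / s), by positivity, by rw [hp, mul_smul, ← e1]⟩
  · rintro ⟨r, hr, hp⟩
    exact ⟨r * (s / t), by positivity, by rw [hp, mul_smul, ← e2]⟩

theorem hz_same (u w : ℝ × ℝ) (hu : u ≠ 0) (hw : w ≠ 0) (h : Far u w) (y y' : ℝ)
    (e : hz u w y = hz u w y') : y = y' := by
  rcases le_total 0 y with h1 | h1 <;> rcases le_total 0 y' with h2 | h2
  · rw [hz_nonneg _ _ _ h1, hz_nonneg _ _ _ h2] at e
    exact smul_left_injective ℝ hu e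
  · rw [hz_nonneg _ _ _ h1, hz_nonpos _ _ _ h2] at e
    have := h _ _ h1 (by linarith) e
    linarith [this.1, this.2]
  · rw [hz_nonpos _ _ _ h1, hz_nonneg _ _ _ h2] at e
    have := h _ _ h2 (by linarith) e.symm
    linarith [this.1, this.2]
  · rw [hz_nonpos _ _ _ h1, hz_nonpos _ _ _ h2] at e
    have := smul_left_injective ℝ hw e
    linarith

theorem hz_diff (u w w' : ℝ × ℝ) (hu : u ≠ 0) (h : Far u w) (h' : Far u w') (h'' : Far w w')
    (y y' : ℝ) (e : hz u w y = hz u w' y') : y = y' ∧ 0 ≤ y := by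
  rcases le_total 0 y with h1 | h1 <;> rcases le_total 0 y' with h2 | h2
  · rw [hz_nonneg _ _ _ h1, hz_nonneg _ _ _ h2] at e
    exact ⟨smul_left_injective ℝ hu e, h1⟩
  · rw [hz_nonneg _ _ _ h1, hz_nonpos _ _ _ h2] at e
    have := h' _ _ h1 (by linarith) e
    exact ⟨by linarith [this.1, this.2], h1⟩
  · rw [hz_nonpos _ _ _ h1, hz_nonneg _ _ _ h2] at e
    have := h _ _ h2 (by linarith) e.symm
    exact ⟨by linarith [this.1, this.2], by linarith [this.1, this.2]⟩
  · rw [hz_nonpos _ _ _ h1, hz_nonpos _ _ _ h2] at e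
    have := h'' _ _ (by linarith) (by linarith) e
    exact ⟨by linarith [this.1, this.2], by linarith [this.1, this.2]⟩

def phi (K s : ℕ) : ℤ := min (s : ℤ) (min (K : ℤ) (2 * K + 2 - s))

/-- signed coordinate at integer time -/
def xx (K e b a T : ℕ) : ℤ :=
  if T % (2 * K + 2) = K + 1 ∧ (T / (2 * K + 2) = b ∨ T / (2 * K + 2) = a) then 0
  else e - phi K (T % (2 * K + 2))

theorem succ_dm (L T : ℕ) (hL : 0 < L) :
    ((T + 1) % L = T % L + 1 ∧ (T + 1) / L = T / L) ∨ ((T + 1) % L = 0 ∧ T % L + 1 = L) := by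
  have h1 := Nat.mod_lt T hL
  have h2 := Nat.div_add_mod T L
  by_cases h : T % L + 1 < L
  · left
    have := (Nat.div_mod_unique (a := T + 1) (d := T / L) (c := T % L + 1) hL).2 ⟨by omega, h⟩
    exact ⟨this.2, this.1⟩
  · right
    have := (Nat.div_mod_unique (a := T + 1) (d := T / L + 1) (c := 0) hL).2
      ⟨by rw [mul_add]; omega, hL⟩
    exact ⟨this.2, by omega⟩

theorem xx_sign (K e b a T : ℕ) (h1 : 1 ≤ e) :
    (0 ≤ xx K e b a T ∧ 0 ≤ xx K e b a (T + 1)) ∨
    (xx K e b a T ≤ 0 ∧ xx K e b a (T + 1) ≤ 0 ∧ (T + 1) / (2 * K + 2) = T / (2 * K + 2)) := by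
  have hm := Nat.mod_lt T (show 0 < 2 * K + 2 by omega)
  unfold xx phi
  rcases succ_dm (2 * K + 2) T (by omega) with ⟨h3, h4⟩ | ⟨h3, h4⟩
  · rw [h3, h4]
    split_ifs <;> omega
  · rw [h3]
    split_ifs <;> omega

noncomputable def pg (w w' : ℝ × ℝ) (b a j : ℕ) : ℝ × ℝ := if j = b ∨ j = a then w' else w

noncomputable def Pos (u w w' : ℝ × ℝ) (K e b a T : ℕ) (θ : ℝ) : R3 :=
  (hz u (pg w w' b a (T / (2 * K + 2))) ((1 - θ) * xx K e b a T + θ * xx K e b a (T + 1)),
    -((T : ℝ) + θ))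

theorem seg_pos (u w w' : ℝ × ℝ) (K e b a T : ℕ) (h1 : 1 ≤ e) (θ : ℝ) (h0 : 0 ≤ θ) (h2 : θ ≤ 1) :
    (1 - θ) • Pos u w w' K e b a T 0 + θ • Pos u w w' K e b a (T + 1) 0 = Pos u w w' K e b a T θ := by
  unfold Pos
  refine Prod.ext ?_ ?_
  · simp only [sub_zero, one_mul, zero_mul, add_zero, Prod.fst_add, Prod.smul_fst]
    have h3 : 0 ≤ 1 - θ := by linarith
    rcases xx_sign K e b a T h1 with ⟨p1, p2⟩ | ⟨p1, p2, p3⟩
    · have p1' : (0 : ℝ) ≤ xx K e b a T := by exact_mod_cast p1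
      have p2' : (0 : ℝ) ≤ xx K e b a (T + 1) := by exact_mod_cast p2
      rw [hz_nonneg _ _ _ p1', hz_nonneg _ _ _ p2', hz_nonneg _ _ _ (by positivity), smul_smul,
        smul_smul, ← add_smul]
    · have p1' : (xx K e b a T : ℝ) ≤ 0 := by exact_mod_cast p1
      have p2' : (xx K e b a (T + 1) : ℝ) ≤ 0 := by exact_mod_cast p2
      rw [p3, hz_nonpos _ _ _ p1', hz_nonpos _ _ _ p2', hz_nonpos _ _ _ (by nlinarith), smul_smul,
        smul_smul, ← add_smul]
      congr 1; ring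
  · simp only [add_zero, Prod.snd_add, Prod.smul_snd, smul_eq_mul]
    push_cast; ring

theorem arc_pos (u w w' : ℝ × ℝ) (K e b a T0 k : ℕ) (h1 : 1 ≤ e) (p : R3)
    (hp : p ∈ Arc k (fun i => Pos u w w' K e b a (T0 + i) 0)) :
    ∃ T θ, 0 ≤ θ ∧ θ < 1 ∧ p = Pos u w w' K e b a T θ := by
  simp only [Arc, Set.mem_iUnion] at hp
  obtain ⟨i, _, s, t, hs, ht, hst, rfl⟩ := hp
  by_cases h : t < 1
  · refine ⟨T0 + i, t, ht, h, ?_⟩
    rw [← seg_pos u w w' K e b a (T0 + i) h1 t ht h.le, show s = 1 - t by linarith]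
    rfl
  · have : t = 1 := by linarith
    have : s = 0 := by linarith
    subst_vars
    exact ⟨T0 + (i + 1), 0, le_refl _, by norm_num, by simp⟩

theorem time_eq (T T' : ℕ) (θ θ' : ℝ) (h0 : 0 ≤ θ) (h1 : θ < 1) (h0' : 0 ≤ θ') (h1' : θ' < 1)
    (h : -((T : ℝ) + θ) = -((T' : ℝ) + θ')) : T = T' ∧ θ = θ' := by
  have e1 : (T : ℝ) < T' + 1 := by linarith
  have e2 : (T' : ℝ) < T + 1 := by linarith
  have e3 : T < T' + 1 := by exact_mod_cast e1
  have e4 : T' < T + 1 := by exact_mod_cast e2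
  have : T = T' := by omega
  subst this
  exact ⟨rfl, by linarith⟩

theorem collide (u w w' : ℝ × ℝ) (hu : u ≠ 0) (hw : w ≠ 0) (hw' : w' ≠ 0) (f1 : Far u w)
    (f2 : Far u w') (f3 : Far w w') (f4 : Far w' w) (K e b a e' b' a' T : ℕ) (θ : ℝ)
    (h0 : 0 ≤ θ) (h1 : θ < 1) (he : e < K) (he' : e' < K) (hne : e ≠ e')
    (h : Pos u w w' K e b a T θ = Pos u w w' K e' b' a' T θ) :
    θ = 0 ∧ T % (2 * K + 2) = K + 1 ∧ (T / (2 * K + 2) = b ∨ T / (2 * K + 2) = a) ∧
      (T / (2 * K + 2) = b' ∨ T / (2 * K + 2) = a') := by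
  have h2 := congrArg Prod.fst h
  simp only [Pos, pg] at h2
  have hm := Nat.mod_lt T (show 0 < 2 * K + 2 by omega)
  have hd : ((e : ℝ) - e') ≠ 0 := by
    intro h; apply hne; exact_mod_cast (sub_eq_zero.1 h)
  have heK : (e : ℝ) < K := by exact_mod_cast he
  have heK' : (e' : ℝ) < K := by exact_mod_cast he'
  have hsd := succ_dm (2 * K + 2) T (by omega)
  -- values in the generic case
  have gen : ∀ (e b a : ℕ), (T % (2 * K + 2) ≠ K + 1 ∧ T % (2 * K + 2) ≠ K) ∨
      ¬ (T / (2 * K + 2) = b ∨ T / (2 * K + 2) = a) →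
      xx K e b a T = e - phi K (T % (2 * K + 2)) ∧
        xx K e b a (T + 1) = e - phi K ((T + 1) % (2 * K + 2)) := by
    intro e b a hh
    unfold xx
    constructor
    · rw [if_neg]; omega
    · rw [if_neg]; omega
  have ph : T % (2 * K + 2) = K + 1 ∨ T % (2 * K + 2) = K →
      phi K (T % (2 * K + 2)) = K ∧ phi K ((T + 1) % (2 * K + 2)) = K := by
    intro hh
    unfold phi
    omega
  have sp1 : ∀ (e b a : ℕ), T % (2 * K + 2) = K + 1 → (T / (2 * K + 2) = b ∨ T / (2 * K + 2) = a) →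
      xx K e b a T = 0 ∧ xx K e b a (T + 1) = e - K := by
    intro e b a hh hi
    unfold xx
    rw [if_pos ⟨hh, hi⟩, if_neg (by omega), (ph (Or.inl hh)).2]
    exact ⟨rfl, rfl⟩
  have sp2 : ∀ (e b a : ℕ), T % (2 * K + 2) = K → (T / (2 * K + 2) = b ∨ T / (2 * K + 2) = a) →
      xx K e b a T = e - K ∧ xx K e b a (T + 1) = 0 := by
    intro e b a hh hi
    unfold xx
    rw [if_neg (by omega), if_pos (by omega), (ph (Or.inr hh)).1]
    exact ⟨rfl, rfl⟩
  have yeq : (1 - θ) * (xx K e b a T : ℝ) + θ * xx K e b a (T + 1)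
      = (1 - θ) * xx K e' b' a' T + θ * xx K e' b' a' (T + 1) := by
    split_ifs at h2
    · exact hz_same _ _ hu hw' f2 _ _ h2
    · exact (hz_diff _ _ _ hu f2 f1 f4 _ _ h2).1
    · exact (hz_diff _ _ _ hu f1 f2 f3 _ _ h2).1
    · exact hz_same _ _ hu hw f1 _ _ h2
  by_cases hs : T % (2 * K + 2) ≠ K + 1 ∧ T % (2 * K + 2) ≠ K
  · exfalso
    rw [(gen e b a (Or.inl hs)).1, (gen e b a (Or.inl hs)).2, (gen e' b' a' (Or.inl hs)).1,
      (gen e' b' a' (Or.inl hs)).2] at yeq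
    push_cast at yeq
    apply hd; linarith
  have hs' : T % (2 * K + 2) = K + 1 ∨ T % (2 * K + 2) = K := by omega
  by_cases i1 : T / (2 * K + 2) = b ∨ T / (2 * K + 2) = a <;>
    by_cases i2 : T / (2 * K + 2) = b' ∨ T / (2 * K + 2) = a'
  · rcases hs' with hs' | hs'
    · rw [(sp1 e b a hs' i1).1, (sp1 e b a hs' i1).2, (sp1 e' b' a' hs' i2).1,
        (sp1 e' b' a' hs' i2).2] at yeq
      push_cast at yeq
      have : θ * ((e : ℝ) - e') = 0 := by linarith
      exact ⟨(mul_eq_zero.1 this).resolve_right hd, hs', i1, i2⟩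
    · exfalso
      rw [(sp2 e b a hs' i1).1, (sp2 e b a hs' i1).2, (sp2 e' b' a' hs' i2).1,
        (sp2 e' b' a' hs' i2).2] at yeq
      push_cast at yeq
      have : (1 - θ) * ((e : ℝ) - e') = 0 := by linarith
      have := (mul_eq_zero.1 this).resolve_right hd
      linarith
  · exfalso
    rw [if_pos i1, if_neg i2] at h2
    have := (hz_diff _ _ _ hu f2 f1 f4 _ _ h2).2
    rw [yeq, (gen e' b' a' (Or.inr i2)).1, (gen e' b' a' (Or.inr i2)).2, (ph hs').1, (ph hs').2] at this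
    push_cast at this
    linarith
  · exfalso
    rw [if_neg i1, if_pos i2] at h2
    have := (hz_diff _ _ _ hu f1 f2 f3 _ _ h2).2
    rw [(gen e b a (Or.inr i1)).1, (gen e b a (Or.inr i1)).2, (ph hs').1, (ph hs').2] at this
    push_cast at this
    linarith
  · exfalso
    rw [(gen e b a (Or.inr i1)).1, (gen e b a (Or.inr i1)).2, (gen e' b' a' (Or.inr i2)).1,
      (gen e' b' a' (Or.inr i2)).2] at yeq
    push_cast at yeq
    apply hd; linarith

theorem vt_dm (K v : ℕ) : (v * (2 * K + 2) + (K + 1)) % (2 * K + 2) = K + 1 ∧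
    (v * (2 * K + 2) + (K + 1)) / (2 * K + 2) = v := by
  have := (Nat.div_mod_unique (a := v * (2 * K + 2) + (K + 1)) (d := v) (c := K + 1)
    (show 0 < 2 * K + 2 by omega)).2 ⟨by ring, by omega⟩
  exact ⟨this.2, this.1⟩

theorem pos_vertex (u w w' : ℝ × ℝ) (K e b a T : ℕ) (h1 : T % (2 * K + 2) = K + 1)
    (h2 : T / (2 * K + 2) = b ∨ T / (2 * K + 2) = a) :
    Pos u w w' K e b a T 0 = (0, -(T : ℝ)) := by
  unfold Pos xx
  rw [if_pos ⟨h1, h2⟩]
  simp [hz]

theorem embeds_all {n : ℕ} (hn : 3 ≤ n) (d : Fin n → ℝ × ℝ) (hd : ∀ i, d i ≠ 0)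
    (hinj : Function.Injective (fun i => Page (d i))) (N : ℕ) (E : Fin N → Fin N → Prop)
    (hE : ∀ b a, E b a → b < a) : Embeds E (Book d) := by
  set i0 : Fin n := ⟨0, by omega⟩
  set i1 : Fin n := ⟨1, by omega⟩
  set i2 : Fin n := ⟨2, by omega⟩
  have far : ∀ i j : Fin n, i ≠ j → Far (d i) (d j) :=
    fun i j h => far_of _ _ (hd i) (hd j) (fun h' => h (hinj h'))
  have f1 := far i0 i1 (by simp [i0, i1])
  have f2 := far i0 i2 (by simp [i0, i2])
  have f3 := far i1 i2 (by simp [i1, i2])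
  have f4 := far i2 i1 (by simp [i1, i2])
  set K := N * N + 1 with hK
  have hlt : ∀ b a : Fin N, b.1 * N + a.1 + 1 < K := by
    intro b a
    have h1 := b.2
    have h2 := a.2
    have : (b.1 + 1) * N ≤ N * N := Nat.mul_le_mul_right _ h1
    rw [hK]; nlinarith
  have hbook : ∀ e b a T θ, Pos (d i0) (d i1) (d i2) K e b a T θ ∈ Book d := by
    intro e b a T θ
    simp only [Book, Set.mem_iUnion, Page, Pos, Set.mem_ofPred_eq, hz, pg]
    split_ifs with h1 h2
    · exact ⟨i0, _, h1, rfl⟩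
    · exact ⟨i2, _, by linarith, rfl⟩
    · exact ⟨i1, _, by linarith, rfl⟩
  refine ⟨fun v => (0, -((v.1 * (2 * K + 2) + (K + 1) : ℕ) : ℝ)),
    fun b a => (a.1 - b.1) * (2 * K + 2),
    fun b a i => Pos (d i0) (d i1) (d i2) K (b.1 * N + a.1 + 1) b.1 a.1
      (b.1 * (2 * K + 2) + (K + 1) + i) 0, ?_, ?_, ?_, ?_⟩
  · intro v v' h
    have h1 := congrArg Prod.snd h
    simp only [neg_inj, Nat.cast_inj, add_left_inj] at h1
    exact Fin.ext (Nat.eq_of_mul_eq_mul_right (by omega) h1)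
  · intro v
    simp only [Book, Set.mem_iUnion, Page, Set.mem_ofPred_eq]
    exact ⟨i0, 0, le_refl _, by simp⟩
  · intro b a hba
    have hlt' : b.1 < a.1 := hE b a hba
    refine ⟨?_, ?_, ?_, ?_, ?_⟩
    · exact pos_vertex _ _ _ _ _ _ _ _ (vt_dm K b).1 (Or.inl (vt_dm K b).2)
    · have : b.1 * (2 * K + 2) + (K + 1) + (a.1 - b.1) * (2 * K + 2) = a.1 * (2 * K + 2) + (K + 1) := by
        obtain ⟨c, hc⟩ : ∃ c, a.1 = b.1 + c := ⟨a.1 - b.1, by omega⟩
        rw [hc, Nat.add_sub_cancel_left]; ring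
      simp only [this]
      exact pos_vertex _ _ _ _ _ _ _ _ (vt_dm K a).1 (Or.inr (vt_dm K a).2)
    · intro i _
      simp only [Pos]
      push_cast; linarith
    · intro p hp
      obtain ⟨T, θ, _, _, rfl⟩ := arc_pos _ _ _ _ _ _ _ _ _ (by omega) p hp
      exact hbook _ _ _ _ _
    · intro v hv
      obtain ⟨T, θ, h0, h1, h⟩ := arc_pos _ _ _ _ _ _ _ _ _ (by omega) _ hv
      have h2 := congrArg Prod.snd h
      obtain ⟨h3, h4⟩ := time_eq (v.1 * (2 * K + 2) + (K + 1)) T 0 θ (le_refl _) (by norm_num) h0 h1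
        (by simpa [Pos] using h2)
      subst h3 h4
      by_contra hn
      have h5 := congrArg Prod.fst h
      have h6 : ¬ (v.1 = b.1 ∨ v.1 = a.1) := by
        rintro (h | h)
        · exact hn (Or.inl (Fin.ext h))
        · exact hn (Or.inr (Fin.ext h))
      have h7 : xx K (b.1 * N + a.1 + 1) b.1 a.1 (v.1 * (2 * K + 2) + (K + 1)) < 0 := by
        unfold xx phi
        rw [(vt_dm K v).1, (vt_dm K v).2, if_neg (fun h => h6 h.2)]
        have := hlt b a
        omega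
      have h8 : (xx K (b.1 * N + a.1 + 1) b.1 a.1 (v.1 * (2 * K + 2) + (K + 1)) : ℝ) < 0 := by
        exact_mod_cast h7
      simp only [Pos, pg, (vt_dm K v).2, if_neg h6, sub_zero, one_mul, zero_mul, add_zero] at h5
      rw [hz_nonpos _ _ _ h8.le] at h5
      have := (smul_eq_zero.1 h5.symm).resolve_right (hd i1)
      linarith
  · intro b a b' a' _ _ hne p hp hp'
    obtain ⟨T, θ, h0, h1, h⟩ := arc_pos _ _ _ _ _ _ _ _ _ (by omega) _ hp
    obtain ⟨T', θ', h0', h1', h'⟩ := arc_pos _ _ _ _ _ _ _ _ _ (by omega) _ hp'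
    have h2 := h.symm.trans h'
    obtain ⟨h3, h4⟩ := time_eq T T' θ θ' h0 h1 h0' h1' (congrArg Prod.snd h2)
    subst h3 h4
    have hne' : b.1 * N + a.1 + 1 ≠ b'.1 * N + a'.1 + 1 := by
      intro h
      apply hne
      have hN : 0 < N := lt_of_le_of_lt (Nat.zero_le _) a.2
      have e1 := (Nat.div_mod_unique (a := b.1 * N + a.1) (d := b.1) (c := a.1) hN).2 ⟨by ring, a.2⟩
      have e2 := (Nat.div_mod_unique (a := b.1 * N + a.1) (d := b'.1) (c := a'.1) hN).2
        ⟨by linarith, a'.2⟩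
      exact Prod.ext (Fin.ext (e1.1.symm.trans e2.1)) (Fin.ext (e1.2.symm.trans e2.2))
    obtain ⟨c1, c2, c3, c4⟩ := collide _ _ _ (hd i0) (hd i1) (hd i2) f1 f2 f3 f4 _ _ _ _ _ _ _ _ _
      h0 h1 (hlt b a) (hlt b' a') hne' h2
    subst c1
    have hj : T / (2 * K + 2) < N := by
      rcases c3 with h | h <;> rw [h]
      · exact b.2
      · exact a.2
    refine ⟨⟨T / (2 * K + 2), hj⟩, ?_, ?_, ?_⟩
    · rw [h, pos_vertex _ _ _ _ _ _ _ _ c2 c3]
      have := Nat.div_add_mod T (2 * K + 2)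
      simp only
      rw [← c2, mul_comm, this]
    · exact c3.imp Fin.ext Fin.ext
    · exact c4.imp Fin.ext Fin.ext

theorem result : ∀ (n : ℕ), 3 ≤ n → ∀ d : Fin n → ℝ × ℝ, (∀ i, d i ≠ 0) →
    Function.Injective (fun i => Page (d i)) → ∀ m : ℕ,
    ∃ (N : ℕ) (E : Fin N → Fin N → Prop),
      (∀ v, ¬ Relation.TransGen E v v) ∧
      (∃ top, ∀ v, Relation.ReflTransGen E top v) ∧ (∃ bot, ∀ v, Relation.ReflTransGen E v bot) ∧
      (∀ (t : ℕ) (L : Fin t → LinearOrder (Fin N)), Realizer E L → m ≤ t) ∧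
      Embeds E (Book d) := by
  intro n hn d hd hinj m
  set E : Fin (2 * m + 2) → Fin (2 * m + 2) → Prop := fun x y => x.1 < y.1 ∧
    (x.1 = 0 ∨ y.1 = 2 * m + 1 ∨ (x.1 ≤ m ∧ m + 1 ≤ y.1 ∧ y.1 ≠ x.1 + m)) with hE
  have htr : ∀ x y, Relation.ReflTransGen E x y → x = y ∨ E x y := by
    intro x y h
    induction h with
    | refl => exact Or.inl rfl
    | @tail y z _ h2 ih =>
      rcases ih with rfl | ih
      · exact Or.inr h2
      · right
        have := z.2
        simp only [hE] at ih h2 ⊢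
        omega
  refine ⟨2 * m + 2, E, ?_, ⟨⟨0, by omega⟩, ?_⟩, ⟨⟨2 * m + 1, by omega⟩, ?_⟩, ?_,
    embeds_all hn d hd hinj _ E (fun b a h => h.1)⟩
  · have : ∀ x y, Relation.TransGen E x y → x.1 < y.1 := by
      intro x y h
      induction h with
      | single h => exact h.1
      | tail _ h2 ih => exact ih.trans h2.1
    intro v hv
    exact lt_irrefl _ (this v v hv)
  · intro v
    by_cases h : v.1 = 0
    · rw [show v = ⟨0, by omega⟩ from Fin.ext h]
    · exact Relation.ReflTransGen.single ⟨by simp only; omega, Or.inl rfl⟩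
  · intro v
    by_cases h : v.1 = 2 * m + 1
    · rw [show v = ⟨2 * m + 1, by omega⟩ from Fin.ext h]
    · exact Relation.ReflTransGen.single ⟨by have := v.2; simp only; omega, Or.inr (Or.inl rfl)⟩
  · intro t L hL
    let up : Fin m → Fin (2 * m + 2) := fun i => ⟨i.1 + 1, by omega⟩
    let lo : Fin m → Fin (2 * m + 2) := fun i => ⟨i.1 + 1 + m, by omega⟩
    have h1 : ∀ i, ∃ j, ¬ (L j).le (lo i) (up i) := by
      intro i
      by_contra hc
      push Not at hc
      have := i.2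
      rcases htr _ _ ((hL _ _).2 hc) with h | h
      · have := congrArg Fin.val h
        simp only [up, lo] at this
        omega
      · simp only [hE, up, lo] at h
        omega
    choose f hf using h1
    have h2 : ∀ i j : Fin m, i ≠ j → ∀ l, (L l).le (lo i) (up j) := by
      intro i j hij
      refine (hL _ _).1 (Relation.ReflTransGen.single ?_)
      have := i.2
      have := j.2
      have : i.1 ≠ j.1 := fun h => hij (Fin.ext h)
      simp only [hE, up, lo]
      omega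
    have hf' : Function.Injective f := by
      intro i j hij
      by_contra hne
      have a1 := hf i
      have a2 := hf j
      rw [← hij] at a2
      have a3 := h2 i j hne (f i)
      have a4 := h2 j i (Ne.symm hne) (f i)
      have a5 := ((L (f i)).le_total _ _).resolve_left a1
      have a6 := ((L (f i)).le_total _ _).resolve_left a2
      exact a1 ((L (f i)).le_trans _ _ _ a3 ((L (f i)).le_trans _ _ _ a6 a4))
    simpa using Fintype.card_le_of_injective f hf'

end Pool.Agent.Results.MP_c8a2a1_co.Books
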